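import Mathlib
import Pool.Agent.X51.KE.Stm

set_option autoImplicit false

namespace Pool.Agent.H329.KE

open Pool.Agent.X51.KE


lemma orth (n : ℕ) [NeZero n] (c : ZMod n) :
    ∑ i : ZMod n, (ZMod.stdAddChar (c * i) : ℂ) = if c = 0 then (n : ℂ) else 0 := by
  have h := AddChar.sum_mulShift (R := ZMod n) (R' := ℂ) (ψ := ZMod.stdAddChar) c
    (ZMod.isPrimitive_stdAddChar n)
  simp only [ZMod.card] at h
  rw [Nat.cast_ite, Nat.cast_zero] at h
  rw [← h]
  · refine Finset.sum_congr rfl fun i _ => ?_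
    rw [mul_comm]

lemma conj_e (n : ℕ) [NeZero n] (x : ZMod n) :
    (starRingEnd ℂ) (ZMod.stdAddChar x) = ZMod.stdAddChar (-x) :=
  (AddChar.map_neg_eq_conj _ _).symm

lemma cast_inj {n : ℕ} {p q : ℕ} (hp : p < n) (hq : q < n) (h : (p : ZMod n) = (q : ZMod n)) :
    p = q := by
  have := (ZMod.natCast_eq_natCast_iff' p q n).1 h
  rwa [Nat.mod_eq_of_lt hp, Nat.mod_eq_of_lt hq] at this

lemma cast_ne {n : ℕ} {p : ℕ} (hp0 : 0 < p) (hp : p < n) : (p : ZMod n) ≠ 0 := by
  intro h
  have := (ZMod.natCast_eq_zero_iff p n).1 h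
  exact absurd (Nat.le_of_dvd hp0 this) (by omega)

theorem t_EVEN : S_EVEN := by
  intro n K _ hK hn hnK w t b H
  obtain ⟨k, hk⟩ := hn
  have hn2 : n / 2 = k := by omega
  set a : Fin (K + 1) → ZMod n := fun l => ((l.val + 1 : ℕ) : ZMod n) with ha
  set h : ZMod n := ((n / 2 : ℕ) : ZMod n) with hh
  -- complex form of the hypothesis
  have H1 : ∀ i : ZMod n, (∑ l, ((starRingEnd ℂ) (w l) * ZMod.stdAddChar (a l * i) +
      w l * ZMod.stdAddChar (-(a l * i)))) / 2 +
      (t : ℂ) * (ZMod.stdAddChar (h * i) + ZMod.stdAddChar (-(h * i))) / 2 - (b : ℂ) = 0 := by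
    intro i
    have h0 := congrArg (fun x : ℝ => (x : ℂ)) (H i)
    simp only [Complex.ofReal_add, Complex.ofReal_mul] at h0
    rw [Complex.re_eq_add_conj, Complex.re_eq_add_conj, conj_e, map_sum] at h0
    simp only [map_mul, Complex.conj_conj, conj_e] at h0
    rw [← Finset.sum_add_distrib] at h0
    rw [← h0]
    ring
  have key : ∀ m : ZMod n,
      (∑ l, ((starRingEnd ℂ) (w l) * (∑ i : ZMod n, (ZMod.stdAddChar ((a l - m) * i) : ℂ)) +
        w l * (∑ i : ZMod n, (ZMod.stdAddChar ((-a l - m) * i) : ℂ)))) / 2 +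
      (t : ℂ) * ((∑ i : ZMod n, (ZMod.stdAddChar ((h - m) * i) : ℂ)) +
        (∑ i : ZMod n, (ZMod.stdAddChar ((-h - m) * i) : ℂ))) / 2 -
      (b : ℂ) * (∑ i : ZMod n, (ZMod.stdAddChar (-m * i) : ℂ)) = 0 := by
    intro m
    have h1 : ∑ i : ZMod n, (ZMod.stdAddChar (-m * i) : ℂ) *
        ((∑ l, ((starRingEnd ℂ) (w l) * ZMod.stdAddChar (a l * i) +
      w l * ZMod.stdAddChar (-(a l * i)))) / 2 +
      (t : ℂ) * (ZMod.stdAddChar (h * i) + ZMod.stdAddChar (-(h * i))) / 2 - (b : ℂ)) = 0 :=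
      Finset.sum_eq_zero fun i _ => by rw [H1 i, mul_zero]
    have e1 : ∀ x y : ZMod n, ∀ i : ZMod n, (ZMod.stdAddChar ((x - y) * i) : ℂ) =
        ZMod.stdAddChar (-y * i) * ZMod.stdAddChar (x * i) := by
      intro x y i
      rw [← AddChar.map_add_eq_mul]; congr 1; ring
    have e2 : ∀ i : ZMod n, (ZMod.stdAddChar (-m * i) : ℂ) *
        ((∑ l, ((starRingEnd ℂ) (w l) * ZMod.stdAddChar (a l * i) +
      w l * ZMod.stdAddChar (-(a l * i)))) / 2 +
      (t : ℂ) * (ZMod.stdAddChar (h * i) + ZMod.stdAddChar (-(h * i))) / 2 - (b : ℂ)) =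
      (∑ l, ((starRingEnd ℂ) (w l) * ZMod.stdAddChar ((a l - m) * i) +
        w l * ZMod.stdAddChar ((-a l - m) * i))) / 2 +
      (t : ℂ) * (ZMod.stdAddChar ((h - m) * i) + ZMod.stdAddChar ((-h - m) * i)) / 2 -
      (b : ℂ) * ZMod.stdAddChar (-m * i) := by
      intro i
      simp only [e1, neg_mul]
      have e3 : ∑ l, ((starRingEnd ℂ) (w l) * (ZMod.stdAddChar (-(m * i)) *
          ZMod.stdAddChar (a l * i)) + w l * (ZMod.stdAddChar (-(m * i)) *
          ZMod.stdAddChar (-(a l * i)))) = (ZMod.stdAddChar (-(m * i)) : ℂ) *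
          ∑ l, ((starRingEnd ℂ) (w l) * ZMod.stdAddChar (a l * i) +
      w l * ZMod.stdAddChar (-(a l * i))) := by
        rw [Finset.mul_sum]
        refine Finset.sum_congr rfl fun l _ => ?_
        ring
      rw [e3]
      ring
    have fA : ∑ i : ZMod n, (∑ l, ((starRingEnd ℂ) (w l) * ZMod.stdAddChar ((a l - m) * i) +
        w l * ZMod.stdAddChar ((-a l - m) * i))) / 2 =
        (∑ l, ((starRingEnd ℂ) (w l) * (∑ i : ZMod n, (ZMod.stdAddChar ((a l - m) * i) : ℂ)) +
        w l * (∑ i : ZMod n, (ZMod.stdAddChar ((-a l - m) * i) : ℂ)))) / 2 := by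
      rw [← Finset.sum_div, Finset.sum_comm]
      congr 1
      refine Finset.sum_congr rfl fun l _ => ?_
      rw [Finset.sum_add_distrib, Finset.mul_sum, Finset.mul_sum]
    have fB : ∑ i : ZMod n,
        (t : ℂ) * (ZMod.stdAddChar ((h - m) * i) + ZMod.stdAddChar ((-h - m) * i)) / 2 =
        (t : ℂ) * ((∑ i : ZMod n, (ZMod.stdAddChar ((h - m) * i) : ℂ)) +
        (∑ i : ZMod n, (ZMod.stdAddChar ((-h - m) * i) : ℂ))) / 2 := by
      rw [← Finset.sum_div, ← Finset.mul_sum, Finset.sum_add_distrib]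
    have fC : ∑ i : ZMod n, (b : ℂ) * ZMod.stdAddChar (-m * i) =
        (b : ℂ) * (∑ i : ZMod n, (ZMod.stdAddChar (-m * i) : ℂ)) := (Finset.mul_sum _ _ _).symm
    rw [← fA, ← fB, ← fC, ← Finset.sum_add_distrib, ← Finset.sum_sub_distrib,
      ← Finset.sum_congr rfl fun i _ => e2 i]
    exact h1
  have hn0 : (n : ℂ) ≠ 0 := Nat.cast_ne_zero.2 (NeZero.ne n)
  have hw : ∀ l0, w l0 = 0 := by
    intro l0
    have h1 := key (a l0)
    simp only [orth] at h1
    have hl0 := l0.2
    have c1 : h - a l0 ≠ 0 := by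
      intro h2
      have := cast_inj (n := n) (p := n / 2) (q := l0.val + 1) (by omega) (by omega)
        (sub_eq_zero.1 h2)
      omega
    have c2 : -h - a l0 ≠ 0 := by
      intro h2
      have h3 : ((n / 2 + (l0.val + 1) : ℕ) : ZMod n) = 0 := by
        rw [Nat.cast_add]
        have : h + a l0 = 0 := by linear_combination -h2
        exact this
      exact cast_ne (by omega) (by omega) h3
    have c3 : -a l0 ≠ 0 := by
      rw [neg_ne_zero]; exact cast_ne (by omega) (by omega)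
    have c4 : ∀ l, -a l - a l0 ≠ 0 := by
      intro l h2
      have hl := l.2
      have h3 : (((l.val + 1) + (l0.val + 1) : ℕ) : ZMod n) = 0 := by
        rw [Nat.cast_add]
        have : a l + a l0 = 0 := by linear_combination -h2
        exact this
      exact cast_ne (by omega) (by omega) h3
    have c5 : ∀ l, a l - a l0 = 0 ↔ l = l0 := by
      intro l
      have hl := l.2
      constructor
      · intro h2
        have := cast_inj (n := n) (p := l.val + 1) (q := l0.val + 1) (by omega) (by omega)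
          (sub_eq_zero.1 h2)
        exact Fin.ext (by omega)
      · intro h2; rw [h2, sub_self]
    simp only [if_neg c1, if_neg c2, if_neg c3, if_neg (c4 _), c5, mul_zero, add_zero, sub_zero,
      zero_div, mul_ite, Finset.sum_ite_eq', Finset.mem_univ, if_true] at h1
    have h2 : (starRingEnd ℂ) (w l0) * (n : ℂ) = 0 := by
      have h3 : (starRingEnd ℂ) (w l0) * (n : ℂ) = 2 * ((starRingEnd ℂ) (w l0) * (n : ℂ) / 2) := by
        ring
      rw [h3, h1, mul_zero]
    rcases mul_eq_zero.1 h2 with h3 | h3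
    · exact (map_eq_zero _).1 h3
    · exact absurd h3 hn0
  refine ⟨funext hw, ?_⟩
  -- the case of frequency zero gives b = 0
  have c1 : h ≠ 0 := cast_ne (by omega) (by omega)
  have h1 := key 0
  simp only [orth] at h1
  simp only [hw, map_zero, zero_mul, add_zero, Finset.sum_const_zero, zero_div, zero_add,
    sub_zero, neg_zero, if_neg c1, neg_eq_zero, if_true, mul_zero, zero_sub, neg_eq_zero] at h1
  have hb : b = 0 := by
    rcases mul_eq_zero.1 h1 with h3 | h3
    · exact_mod_cast h3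
    · exact absurd h3 hn0
  have h2 := H 0
  simp only [hw, map_zero, zero_mul, Finset.sum_const_zero, Complex.zero_re, zero_add, mul_zero,
    AddChar.map_zero_eq_one, Complex.one_re, mul_one] at h2
  rw [h2, hb]

end Pool.Agent.H329.KE
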